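import Pool.Agent.H88.CL.Targets

/-! Assembly of the regular case. -/

open Set Function Topology Metric Filter

namespace Pool.Agent.H88.CL

theorem asm_REG (hITL : T_ITL) (hITB : T_ITB) (hITA : T_ITA) (hFRM : T_FRM) (hNST : T_NST)
    (hSTR : T_STR) (hDSJ : T_DSJ) (hMGN : T_MGN) (hSEL : T_SEL) : T_REG := by
  intro d hd
  obtain ⟨C, hC1, hC⟩ := hNST d hd
  refine ⟨C, hC1, ?_⟩
  intro L F F' hcfg x' b n N i0 j0 D D1 θ hN hD1 hij hjn hb hnear hs1 hs2 hreg hsep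
  have hL1 : (1:ℝ) ≤ L := le_trans (by norm_num) hcfg.two
  have hL0 : (0:ℝ) < L := by linarith
  have hK1 : (1:ℝ) ≤ L ^ N := one_le_pow₀ hL1
  -- the frame
  choose A' hA'1 hA'2 hA'3 using fun l : ℕ => hITB d L F F' hcfg l b
  obtain ⟨P, T, hfr⟩ := hFRM d hd N hN (L ^ N) hK1 (fun l => fderiv ℝ F^[l] b) A' (by
    intro l hl
    refine ⟨le_trans ((hITA d L F F' hcfg l).2.1 b) (pow_le_pow_right₀ hL1 hl.le),
      le_trans (hA'1 l) (pow_le_pow_right₀ hL1 hl.le), hA'2 l, hA'3 l⟩)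
  have hPhi : ∀ w, ‖P w‖ ≤ L ^ (2 * N) * ‖w‖ := by
    intro w
    have := hfr.hi w
    rw [← pow_mul] at this
    rwa [mul_comm 2 N]
  have hPlo : ∀ w, ‖P.symm w‖ ≤ ‖w‖ := by
    intro w
    have := hfr.lo (P.symm w)
    simpa using this
  have hPhi' : ∀ w, ‖w‖ ≤ L ^ (2 * N) * ‖P.symm w‖ := by
    intro w
    have := hPhi (P.symm w)
    simpa using this
  have hL2 : (0:ℝ) < L ^ (2 * N) := pow_pos hL0 _
  have hL21 : (1:ℝ) ≤ L ^ (2 * N) := one_le_pow₀ hL1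
  have hL3 : (0:ℝ) < L ^ (3 * N) := pow_pos hL0 _
  have hL13 : (0:ℝ) < L ^ (13 * N) := pow_pos hL0 _
  -- the first configuration
  obtain ⟨z, hz, hzn⟩ := hnear
  have hcost : ‖P.symm ((F^[j0] x' - z) - b)‖ + 1 / 16 * ‖P.symm (b - b)‖ ≤ D := by
    have h1 : (F^[j0] x' - z) - b = F^[j0] x' - b - z := by abel
    rw [h1, sub_self, map_zero, norm_zero]
    have := hPlo (F^[j0] x' - b - z)
    linarith
  have hDpos : 0 ≤ D := le_trans (norm_nonneg _) hzn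
  have hbd : ∀ w : E d, 1 / 16 * ‖P.symm w‖ ≤ D → ‖w‖ ≤ 16 * L ^ (2 * N) * D := by
    intro w hw
    have h1 := hPhi' w
    have h2 : L ^ (2 * N) * ‖P.symm w‖ ≤ L ^ (2 * N) * (16 * D) :=
      mul_le_mul_of_nonneg_left (by linarith) hL2.le
    linarith
  obtain ⟨i, j, p, q, hij', hjn', hp, hq, hc, hint⟩ := hSEL d P b (fun s => F^[s] x') n D
    (D1 / L ^ (2 * N)) (div_pos hD1 hL2)
    ⟨i0, j0, b, F^[j0] x' - z, hij, hjn, hb, by
      have : F^[j0] x' - z - F^[j0] x' = -z := by abel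
      rw [this]; exact neg_mem hz, hcost⟩
    (by
      intro i j u u' h1 h2 h3 h4 h5
      have h6 : 1 / 16 * ‖P.symm (u - b)‖ ≤ D := by
        have := norm_nonneg (P.symm (u' - u)); linarith
      have h7 := hsep i j u u' h1 h2 h3 h4 (hbd _ h6)
      have h8 := hPhi' (u' - u)
      rw [div_le_iff₀ hL2]
      nlinarith [h8, h7])
  have hpb : ‖p - b‖ ≤ 16 * L ^ (2 * N) * D := hbd _ (by
    have := norm_nonneg (P.symm (q - p)); linarith)
  have hD' : ‖P.symm (q - p)‖ ≤ D := by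
    have := norm_nonneg (P.symm (p - b)); linarith
  have hsepq := hsep i j p q hij' hjn' hp hq hpb
  have hD1' : D1 ≤ L ^ (2 * N) * ‖P.symm (q - p)‖ := le_trans hsepq.le (hPhi' _)
  have hv0 : 0 < ‖P.symm (q - p)‖ := by
    by_contra h
    have h1 : ‖P.symm (q - p)‖ = 0 := le_antisymm (not_lt.mp h) (norm_nonneg _)
    rw [h1, mul_zero] at hD1'
    linarith
  have hqp : q ≠ p := by
    rintro rfl
    rw [sub_self, map_zero, norm_zero] at hv0
    exact lt_irrefl _ hv0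
  have hsum : ‖p - b‖ + ‖P.symm (q - p)‖ ≤ 17 * L ^ (2 * N) * D := by
    have : D ≤ L ^ (2 * N) * D := by nlinarith
    linarith
  have hSM : 100 * L ^ (13 * N) * (‖p - b‖ + ‖P.symm (q - p)‖) ≤ 1 := by
    have h1 : 100 * L ^ (13 * N) * (‖p - b‖ + ‖P.symm (q - p)‖) ≤
        100 * L ^ (13 * N) * (17 * L ^ (2 * N) * D) :=
      mul_le_mul_of_nonneg_left hsum (by positivity)
    have h2 : L ^ (15 * N) = L ^ (13 * N) * L ^ (2 * N) := by rw [← pow_add]; ring_nf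
    rw [h2] at hs1
    nlinarith
  have hDJ0 : 3 * L ^ (3 * N) * (‖p - b‖ + ‖P.symm (q - p)‖) ≤ θ := by
    have h1 : 3 * L ^ (3 * N) * (‖p - b‖ + ‖P.symm (q - p)‖) ≤
        3 * L ^ (3 * N) * (17 * L ^ (2 * N) * D) :=
      mul_le_mul_of_nonneg_left hsum (by positivity)
    have h2 : L ^ (5 * N) = L ^ (3 * N) * L ^ (2 * N) := by rw [← pow_add]; ring_nf
    rw [h2] at hs2
    nlinarith
  have hDJ := hDSJ d L F F' hcfg N b p (P.symm (q - p)) P θ hPhi hreg hDJ0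
  obtain ⟨U, ζ, hU, hζ0, hζN, hζ, hUs⟩ := hC L F F' hcfg N b p q P T hN hfr hqp hSM hDJ
  -- the return
  obtain ⟨m, rfl⟩ : ∃ m, j = m + i := ⟨j - i, by omega⟩
  have hm1 : 1 ≤ m := by omega
  have hret : ∀ s, F^[s] p - F^[s + i] x' ∈ Lat d := by
    intro s
    have := (hITL d F F' hcfg.toIsLift s p (F^[i] x')).2 hp
    rwa [← iterate_add_apply] at this
  have hret' : F^[m] p - q ∈ Lat d := by
    have h1 := hret m
    have h2 : F^[m] p - q = (F^[m] p - F^[m + i] x') - (q - F^[m + i] x') := by abel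
    rw [h2]; exact sub_mem h1 hq
  have hNm : N < m := by
    refine hMGN d L F F' hcfg N m b p q ‖P.symm (q - p)‖ θ (hPhi' _) hreg hDJ0 hm1 hret'
  refine ⟨U, ‖P.symm (q - p)‖, q, m, hv0, hD', hD1', hU, hm1, ?_, ?_⟩
  · have h1 : q - b = (q - p) + (p - b) := by abel
    have h2 := norm_add_le (q - p) (p - b)
    have h3 : ‖q - p‖ ≤ L ^ (2 * N) * D :=
      le_trans (hPhi' _) (mul_le_mul_of_nonneg_left hD' hL2.le)
    rw [h1]; linarith
  · refine hSTR d F F' hcfg.toIsLift N m p q ζ U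
      {x | ‖P.symm (x - p) - (1 / 2 : ℝ) • P.symm (q - p)‖ ≤ 3 / 4 * ‖P.symm (q - p)‖}
      hζ0 hζN hζ hUs hNm.le hret' ?_
    intro s hs1' hsm x hx hmem
    have h1 := hint (s + i) (by omega) (by omega) x (by
      have h2 : x - F^[s + i] x' = (F^[s] p - F^[s + i] x') - (F^[s] p - x) := by abel
      show x - F^[s + i] x' ∈ Lat d
      rw [h2]; exact sub_mem (hret s) hmem)
    exact absurd hx (not_le.mpr h1)

end Pool.Agent.H88.CL
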