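import Pool.Agent.H88.CL.ATOP

/-! Assembly of the two final theorems. -/

open Set Function Topology Metric Filter

namespace Pool.Agent.H88.CL

theorem asm_THM1 (hLFA : T_LFA) (hLFB : T_LFB) (hBND : T_BND) (hNWL : T_NWL) (hREC : T_REC)
    (hCNJ : T_CNJ) (hTOP : T_TOP) : T_THM1 := by
  intro d f hf x hx ω hω η hη
  obtain ⟨F, F', hlift, hF, hF'⟩ := hLFA d f hf
  obtain ⟨L, hcfg⟩ := hBND d F F' hlift
  have hnw : NonWandering d f x := by
    rcases hx with h | h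
    · exact hREC d f x hf h
    · exact h
  obtain ⟨x, rfl⟩ : ∃ y, mk d y = x := QuotientAddGroup.mk_surjective x
  have hNW := hNWL d f F hlift.c2.continuous hF x hnw
  rcases Nat.eq_zero_or_pos d with rfl | hd
  · refine ⟨f, hf, ⟨1, le_refl _, ?_⟩, F, F, hlift.c2, hlift.c2, hF, hF, cls_refl hω hη F⟩
    rw [pow_one, hF]
    congr 1
    exact Subsingleton.elim _ _
  · obtain ⟨δ, hδ, hcnj⟩ := hCNJ d L ω (η / 2) hcfg.two hω (by linarith)
    obtain ⟨G, G', q, m, hG, hcls, hm, hqx, hret⟩ := hTOP d hd ω hω L F F' hcfg x hNW δ (η / 2)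
      hδ (by linarith)
    obtain ⟨h1, h2⟩ := hcnj F F' G G' (q - x) hcfg hG hcls hqx
    rw [mul_div_cancel₀ η (two_ne_zero)] at h2
    obtain ⟨g, hg, hgG⟩ := hLFB d _ _ h1
    refine ⟨g, hg, ⟨m, hm, ?_⟩, F, _, hlift.c2, h1.c2, hF, hgG, h2⟩
    rw [perm_pow_mk hgG, conj_iter, mk_eq]
    have : G^[m] (x + (q - x)) - (q - x) - x = G^[m] q - q := by
      rw [add_sub_cancel]; abel
    rw [this]; exact hret

theorem asm_THM2 (hLFA : T_LFA) (hLFB : T_LFB) (hBND : T_BND) (hGML : T_GML) (hFST : T_FST)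
    (hCL2 : T_CL2) (hCN2 : T_CN2) : T_THM2 := by
  intro d f hf x hx η hη
  obtain ⟨F, F', hlift, hF, hF'⟩ := hLFA d f hf
  obtain ⟨L, hcfg⟩ := hBND d F F' hlift
  obtain ⟨x, rfl⟩ : ∃ y, mk d y = x := QuotientAddGroup.mk_surjective x
  obtain ⟨δ, hδ, hcnj⟩ := hCN2 d L F F' (η / 2) hcfg (by linarith)
  obtain ⟨ε, hε, hε2, hcl2⟩ := hCL2 d L F F' (η / 2) hcfg (by linarith)
  obtain ⟨t, c0, ht0, ht1, hc0, hfst⟩ := hFST d (min ε δ) (lt_min hε hδ)
  -- the exponent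
  set A : ℝ := -Real.log t + max 0 (-Real.log c0) with hA
  have hlt : Real.log t < 0 := Real.log_neg ht0 ht1
  have hA0 : 0 < A := by have := le_max_left 0 (-Real.log c0); linarith
  obtain ⟨m, hm, u, v, hu, hv, huv⟩ := hx A hA0
  have hm' : (1:ℝ) ≤ m := by exact_mod_cast hm
  have hexp : Real.exp (-(A * m)) ≤ c0 * t ^ m := by
    have h1 : c0 * t ^ m = Real.exp (Real.log c0 + m * Real.log t) := by
      rw [Real.exp_add, Real.exp_log hc0, mul_comm (m:ℝ), Real.exp_mul, Real.exp_log ht0,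
        Real.rpow_natCast]
    rw [h1]
    apply Real.exp_le_exp.2
    have h2 : 0 ≤ max 0 (-Real.log c0) := le_max_left _ _
    have h3 : -Real.log c0 ≤ max 0 (-Real.log c0) := le_max_right _ _
    have h4 : max 0 (-Real.log c0) * 1 ≤ max 0 (-Real.log c0) * m :=
      mul_le_mul_of_nonneg_left hm' h2
    rw [hA]
    nlinarith
  rw [perm_pow_mk hF] at hu
  have hu' := mk_eq.1 hu
  have hv' := mk_eq.1 hv
  have hnear : Near (c0 * t ^ m) (F^[m] x) x := by
    refine ⟨-(u - F^[m] x) + (v - x), add_mem (neg_mem hu') hv', ?_⟩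
    have : F^[m] x - x - (-(u - F^[m] x) + (v - x)) = u - v := by abel
    rw [this]; exact huv.trans hexp
  obtain ⟨U, q, m', hU, hm1, hqx, hret⟩ := hfst F F' hlift x m hm hnear
  have hU' : Pert d ε ε ε U := hU.mono (min_le_left _ _) (min_le_left _ _) (min_le_left _ _)
  obtain ⟨G', hG'⟩ := hGML d F F' _ _ _ U hlift hU' hε2
  obtain ⟨h1, h2⟩ := hcnj (Gm F U) G' (q - x) hG' (hcl2 U hU')
    (hqx.trans (min_le_right _ _))
  rw [mul_div_cancel₀ η (two_ne_zero)] at h2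
  obtain ⟨g, hg, hgG⟩ := hLFB d _ _ h1
  refine ⟨g, hg, ⟨m', hm1, ?_⟩, F, _, hlift.c2, h1.c2, hF, hgG, h2⟩
  rw [perm_pow_mk hgG, conj_iter, mk_eq]
  have : (Gm F U)^[m'] (x + (q - x)) - (q - x) - x = (Gm F U)^[m'] q - q := by
    rw [add_sub_cancel]; abel
  rw [this]; exact hret

end Pool.Agent.H88.CL
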