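import Pool.Agent.H88.CL.Basic

open Set Function Topology Metric Filter

namespace Pool.Agent.H88.CL

theorem pf_CLE (h1 : T_CLS) (h2 : T_OMB) : T_CLE := by
  intro d L ω η hL hω hη
  obtain ⟨r0, hr0, hr⟩ := h2 ω hω (6 * L / η)
  have hL0 : 0 < L := by linarith
  have hw : 0 < ω (2 / 3) := hω.pos _ (by norm_num)
  set ε : ℝ := min (min (1 / 2) (η / (2 * L))) (min r0 (η * ω (2 / 3) / (4 * L))) with hε
  have e1 : ε ≤ 1 / 2 := (min_le_left _ _).trans (min_le_left _ _)
  have e2 : ε ≤ η / (2 * L) := (min_le_left _ _).trans (min_le_right _ _)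
  have e3 : ε ≤ r0 := (min_le_right _ _).trans (min_le_left _ _)
  have e4 : ε ≤ η * ω (2 / 3) / (4 * L) := (min_le_right _ _).trans (min_le_right _ _)
  have hε0 : 0 < ε := by
    refine lt_min (lt_min (by norm_num) (by positivity)) (lt_min hr0 (by positivity))
  refine ⟨ε, hε0, e1, ?_⟩
  intro F F' U hcfg hU
  refine h1 d L F F' ε ε ε U ω η hcfg hU e1 hω hε0 hε0 hε0.le hη.le ?_ ?_ ?_
  · rw [le_div_iff₀ (by positivity)] at e2
    linarith
  · have h3 := hr (2 * ε / 3) (by positivity) (by linarith)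
    have h4 : 6 * L / η * (2 * ε / 3) = 4 * L * ε / η := by field_simp; ring
    rw [h4, div_le_iff₀ hη] at h3
    linarith
  · have h5 : 2 * ε / (2 * ε + ε) = 2 / 3 := by field_simp; ring
    rw [h5]
    rw [le_div_iff₀ (by positivity)] at e4
    linarith

end Pool.Agent.H88.CL
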