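import Pool.Agent.H88.CL.Basic

open Set Function Topology Metric Filter

namespace Pool.Agent.H88.CL

theorem sep_pt {d : ℕ} {a b : E d} (h : a - b ∉ Lat d) : ∃ e : ℝ, 0 < e ∧ ¬ Near e a b := by
  have h1 : IsOpen ((Lat d : Set (E d))ᶜ) := (lat_closed d).isOpen_compl
  obtain ⟨e, he, hb⟩ := Metric.isOpen_iff.1 h1 (a - b) h
  refine ⟨e / 2, by linarith, ?_⟩
  rintro ⟨z, hz, hzn⟩
  have : z ∈ ball (a - b) e := by
    rw [mem_ball, dist_eq_norm, ← norm_neg, neg_sub]
    linarith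
  exact hb this hz

theorem pf_MAX : T_MAX := by
  intro d Y n x D ρ N0 R hD hρ h0
  by_cases hA : ∃ i j, i < j ∧ j ≤ n ∧ Near R (Y i) x ∧ Y j - Y i ∈ Lat d
  · exact Or.inl hA
  · right
    push Not at hA
    -- a common separation
    have hsep : ∃ e : ℝ, 0 < e ∧ ∀ i j, i < j → j ≤ n → Near R (Y i) x → ¬ Near e (Y j) (Y i) := by
      have h1 : ∀ p : ℕ × ℕ, ∃ e : ℝ, 0 < e ∧ (p.1 < p.2 → p.2 ≤ n → Near R (Y p.1) x →
          ¬ Near e (Y p.2) (Y p.1)) := by
        rintro ⟨i, j⟩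
        by_cases h : i < j ∧ j ≤ n ∧ Near R (Y i) x
        · obtain ⟨e, he, h2⟩ := sep_pt (hA i j h.1 h.2.1 h.2.2)
          exact ⟨e, he, fun _ _ _ => h2⟩
        · exact ⟨1, one_pos, fun a b c => absurd ⟨a, b, c⟩ h⟩
      choose e he1 he2 using h1
      have hne : (Finset.range (n + 1) ×ˢ Finset.range (n + 1)).Nonempty :=
        ⟨(0, 0), by simp⟩
      obtain ⟨p, hp, hmin⟩ := Finset.exists_min_image _ e hne
      refine ⟨e p, he1 p, ?_⟩
      intro i j hij hjn hR hN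
      have hm : (i, j) ∈ Finset.range (n + 1) ×ˢ Finset.range (n + 1) := by
        simp; omega
      exact he2 (i, j) hij hjn hR (hN.mono (hmin _ hm))
    obtain ⟨e, he, hsep⟩ := hsep
    obtain ⟨N1, hN1⟩ := hD e he
    classical
    let p : ℕ → Prop := fun N => N0 ≤ N ∧ ∃ i j, i < j ∧ j ≤ n ∧ Near (ρ N) (Y i) x ∧
      Near (D N) (Y j) (Y i)
    have hbd : ∀ N, p N → N ≤ max N0 N1 := by
      rintro N ⟨hN, i, j, hij, hjn, h1, h2⟩
      by_contra h
      have h3 : N1 ≤ N := by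
        have := not_le.1 h; have := le_max_right N0 N1; omega
      exact hsep i j hij hjn (h1.mono (hρ N)) (h2.mono (hN1 N h3).le)
    have hp0 : p N0 := ⟨le_refl _, h0⟩
    have hs := Nat.findGreatest_spec (P := p) (le_max_left N0 N1) hp0
    refine ⟨Nat.findGreatest p (max N0 N1), hs.1, hs.2, ?_⟩
    intro i j hij hjn h1 h2
    have h3 : p (Nat.findGreatest p (max N0 N1) + 1) := by
      refine ⟨by have := hs.1; omega, i, j, hij, hjn, h1, h2⟩
    have h4 := hbd _ h3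
    have h5 := Nat.le_findGreatest h4 h3
    omega

end Pool.Agent.H88.CL
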