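import Pool.Agent.H13.CL.ITC
import Pool.Agent.H14.CL.ITA
import Pool.Agent.H14.CL.ITL
import Pool.Agent.H19.CL.CL2
import Pool.Agent.H19.CL.CN2
import Pool.Agent.H19.CL.NWL
import Pool.Agent.H19.CL.SUM
import Pool.Agent.H23.CL.ITB
import Pool.Agent.H23.CL.LFB
import Pool.Agent.H26.CL.BND
import Pool.Agent.H33.CL.FRM
import Pool.Agent.H33.CL.ISA
import Pool.Agent.H35.CL.NUM
import Pool.Agent.H36.CL.SEL
import Pool.Agent.H37.CL.FST
import Pool.Agent.H37.CL.MGN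
import Pool.Agent.H40.CL.UCD
import Pool.Agent.H44.CL.REC
import Pool.Agent.H5.CL.CNJ
import Pool.Agent.H5.CL.LFA
import Pool.Agent.H5.CL.SCL
import Pool.Agent.H50.CL.HLV
import Pool.Agent.H50.CL.OBC
import Pool.Agent.H56.CL.NLN
import Pool.Agent.H59.CLo.OBP
import Pool.Agent.H63.CL.CLS
import Pool.Agent.H68.CL.DSJ
import Pool.Agent.H68.CL.GML
import Pool.Agent.H77.CL.ISB
import Pool.Agent.H77.CL.ISO
import Pool.Agent.H78.CL.CONN
import Pool.Agent.H78.CL.STR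
import Pool.Agent.H80.CL.NST
import Pool.Agent.H81.CL.NSU
import Pool.Agent.H88.CL.CLE
import Pool.Agent.H88.CL.MAX
import Pool.Agent.H99.CL.BMP
import Pool.Agent.H99.CL.DIF
import Pool.Agent.H99.CL.MOD
import Pool.Agent.H99.CL.OMB
import Pool.Agent.H88.CL.AREG
import Pool.Agent.H88.CL.ATHM

/-! Closing lemma on the torus: everything together. -/

namespace Pool.Agent.H88.CL

theorem a_ISA : T_ISA := Pool.Agent.H33.CL.pf_ISA 

theorem a_ISB : T_ISB := Pool.Agent.H77.CL.pf_ISB 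

theorem a_ISO : T_ISO := Pool.Agent.H77.CL.pf_ISO a_ISA a_ISB

theorem a_FRM : T_FRM := Pool.Agent.H33.CL.pf_FRM a_ISO

theorem a_ITA : T_ITA := Pool.Agent.H14.CL.pf_ITA 

theorem a_ITL : T_ITL := Pool.Agent.H14.CL.pf_ITL 

theorem a_ITB : T_ITB := Pool.Agent.H23.CL.pf_ITB a_ITA

theorem a_ITC : T_ITC := Pool.Agent.H13.CL.pf_ITC a_ITA

theorem a_NLN : T_NLN := Pool.Agent.H56.CL.pf_NLN a_ITC

theorem a_BMP : T_BMP := Pool.Agent.H99.CL.pf_BMP 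

theorem a_OBP : T_OBP := Pool.Agent.H59.CLo.pf_OBP a_BMP

theorem a_SUM : T_SUM := Pool.Agent.H19.CL.pf_SUM 

theorem a_DIF : T_DIF := Pool.Agent.H99.CL.pf_DIF 

theorem a_GML : T_GML := Pool.Agent.H68.CL.pf_GML a_DIF

theorem a_MOD : T_MOD := Pool.Agent.H99.CL.pf_MOD 

theorem a_OMB : T_OMB := Pool.Agent.H99.CL.pf_OMB 

theorem a_CLS : T_CLS := Pool.Agent.H63.CL.pf_CLS a_MOD

theorem a_CLE : T_CLE := Pool.Agent.H88.CL.pf_CLE a_CLS a_OMB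

theorem a_CNJ : T_CNJ := Pool.Agent.H5.CL.pf_CNJ a_MOD a_OMB

theorem a_NSU : T_NSU := Pool.Agent.H81.CL.pf_NSU a_OBP a_NLN a_ITA

theorem a_NST : T_NST := Pool.Agent.H80.CL.pf_NST a_NSU a_SUM a_ITA a_ITL

theorem a_STR : T_STR := Pool.Agent.H78.CL.pf_STR a_ITL

theorem a_DSJ : T_DSJ := Pool.Agent.H68.CL.pf_DSJ a_ITA a_ITL

theorem a_MGN : T_MGN := Pool.Agent.H37.CL.pf_MGN a_ITA

theorem a_SEL : T_SEL := Pool.Agent.H36.CL.pf_SEL 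

theorem a_MAX : T_MAX := Pool.Agent.H88.CL.pf_MAX 

theorem a_OBC : T_OBC := Pool.Agent.H50.CL.pf_OBC a_OBP a_SUM

theorem a_HLV : T_HLV := Pool.Agent.H50.CL.pf_HLV a_OBC a_ITL

theorem a_FST : T_FST := Pool.Agent.H37.CL.pf_FST a_HLV

theorem a_SCL : T_SCL := Pool.Agent.H5.CL.pf_SCL 

theorem a_NUM : T_NUM := Pool.Agent.H35.CL.pf_NUM a_SCL a_OMB

theorem a_CON : T_CON := Pool.Agent.H78.CL.pf_CON 

theorem a_LFA : T_LFA := Pool.Agent.H5.CL.pf_LFA a_CON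

theorem a_LFB : T_LFB := Pool.Agent.H23.CL.pf_LFB 

theorem a_BND : T_BND := Pool.Agent.H26.CL.pf_BND a_CON

theorem a_UCD : T_UCD := Pool.Agent.H40.CL.pf_UCD a_CON

theorem a_NWL : T_NWL := Pool.Agent.H19.CL.pf_NWL 

theorem a_REC : T_REC := Pool.Agent.H44.CL.pf_REC 

theorem a_CL2 : T_CL2 := Pool.Agent.H19.CL.pf_CL2 a_UCD

theorem a_CN2 : T_CN2 := Pool.Agent.H19.CL.pf_CN2 a_UCD

theorem a_REG : T_REG := asm_REG a_ITL a_ITB a_ITA a_FRM a_NST a_STR a_DSJ a_MGN a_SEL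

theorem a_TOP : T_TOP := asm_TOP a_ITL a_REG a_FST a_NUM a_CLS a_CLE a_GML a_MAX

theorem a_THM1 : T_THM1 := asm_THM1 a_LFA a_LFB a_BND a_NWL a_REC a_CNJ a_TOP

theorem a_THM2 : T_THM2 := asm_THM2 a_LFA a_LFB a_BND a_GML a_FST a_CL2 a_CN2

end Pool.Agent.H88.CL
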