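import Pool.Agent.H88.CL.Basic

/-! Assembly of the main construction. -/

open Set Function Topology Metric Filter

namespace Pool.Agent.H88.CL

theorem cls_refl {d : ℕ} {ω : ℝ → ℝ} (hω : Modulus ω) {η : ℝ} (hη : 0 < η) (F : E d → E d) :
    Cls d ω η F F := by
  refine ⟨fun u => by simp [hη.le], fun u => by simp [hη.le], fun u v huv => ?_⟩
  have h : 0 < ‖u - v‖ := norm_pos_iff.2 (sub_ne_zero.2 huv)
  simp only [sub_self, norm_zero]
  exact mul_nonneg hη.le (hω.pos _ h).le

theorem asm_TOP (hITL : T_ITL) (hREG : T_REG) (hFST : T_FST) (hNUM : T_NUM) (hCLS : T_CLS)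
    (hCLE : T_CLE) (hGML : T_GML) (hMAX : T_MAX) : T_TOP := by
  intro d hd ω hω L F F' hcfg x hNW δ η hδ hη
  obtain ⟨C, hC1, hC⟩ := hREG d hd
  obtain ⟨ε, hε, hε2, hcle⟩ := hCLE d L ω η hcfg.two hω hη
  obtain ⟨t, c0, ht0, ht1, hc0, hfst⟩ := hFST d (min ε (δ / 4)) (lt_min hε (by linarith))
  obtain ⟨s, N0, hN0, hs0, hs⟩ := hNUM ω hω L C (δ / 8) η t c0 hcfg.two hC1 (by linarith) hη ht0 ht1
    hc0
  have hlift := hcfg.toIsLift
  obtain ⟨x', n, hn1, hx'1, hx'2⟩ := hNW (min (Real.exp (-s N0) / 2) (δ / 8))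
    (lt_min (by positivity) (by linarith))
  have hρ1 : ∀ N : ℕ, δ / 8 * (2 - 1 / 2 ^ N) ≤ δ / 4 := by
    intro N
    have : (0:ℝ) < 1 / 2 ^ N := by positivity
    nlinarith
  have hρ2 : ∀ N : ℕ, δ / 8 ≤ δ / 8 * (2 - 1 / 2 ^ N) := by
    intro N
    have : (1:ℝ) / 2 ^ N ≤ 1 := by
      rw [div_le_one (by positivity)]
      exact one_le_pow₀ (by norm_num)
    nlinarith
  have hρ3 : ∀ N : ℕ, δ / 8 * (2 - 1 / 2 ^ N) + δ / 8 / 2 ^ (N + 1) =
      δ / 8 * (2 - 1 / 2 ^ (N + 1)) := by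
    intro N
    have : (2:ℝ) ^ N ≠ 0 := by positivity
    rw [pow_succ]
    field_simp
    ring
  rcases hMAX d (fun k => F^[k] x') n x (fun N => Real.exp (-s N))
    (fun N => δ / 8 * (2 - 1 / 2 ^ N)) N0 (δ / 4) hs0 hρ1
    ⟨0, n, by omega, le_refl _, ⟨0, zero_mem _, by
      have h1 := min_le_right (Real.exp (-s N0) / 2) (δ / 8)
      have h2 := hρ2 N0
      simp only [iterate_zero, id, sub_zero]
      linarith⟩, by
      obtain ⟨z, hz, hzn⟩ := hx'2
      refine ⟨z, hz, ?_⟩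
      have h1 := min_le_left (Real.exp (-s N0) / 2) (δ / 8)
      have h2 : F^[n] x' - F^[0] x' - z = (F^[n] x' - x - z) - (x' - x) := by
        simp only [iterate_zero, id]; abel
      have h3 := norm_sub_le (F^[n] x' - x - z) (x' - x)
      show ‖F^[n] x' - F^[0] x' - z‖ ≤ _
      rw [h2]
      linarith⟩ with h | h
  · obtain ⟨i, j, hij, hjn, ⟨z, hz, hzn⟩, hmem⟩ := h
    refine ⟨F, F', F^[i] x' - z, j - i, hlift, cls_refl hω hη F, by omega, ?_, ?_⟩
    · have : F^[i] x' - z - x = F^[i] x' - x - z := by abel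
      rw [this]
      have hzn' : ‖F^[i] x' - x - z‖ ≤ δ / 4 := hzn
      linarith
    · have h1 : F^[j - i] (F^[i] x' - z) - F^[j - i] (F^[i] x') ∈ Lat d := by
        rw [hITL d F F' hlift]
        have : F^[i] x' - z - F^[i] x' = -z := by abel
        rw [this]; exact neg_mem hz
      rw [← iterate_add_apply, Nat.sub_add_cancel hij.le] at h1
      have h2 : F^[j - i] (F^[i] x' - z) - (F^[i] x' - z) =
          (F^[j - i] (F^[i] x' - z) - F^[j] x') + (F^[j] x' - F^[i] x') + z := by abel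
      rw [h2]
      exact add_mem (add_mem h1 hmem) hz
  · obtain ⟨N, hNN, ⟨i0, j0, hij, hjn, ⟨z, hz, hzn⟩, hnear⟩, hmax⟩ := h
    have hzn' : ‖F^[i0] x' - x - z‖ ≤ δ / 8 * (2 - 1 / 2 ^ N) := hzn
    obtain ⟨n1, n2, n3, n4, n5, n6, n7, n8⟩ := hs N hNN
    have hL1 : (1:ℝ) ≤ L := le_trans (by norm_num) hcfg.two
    have hbx : ‖(F^[i0] x' - z) - x‖ ≤ δ / 8 * (2 - 1 / 2 ^ N) := by
      have : F^[i0] x' - z - x = F^[i0] x' - x - z := by abel
      rw [this]; exact hzn'
    have hbx' : ‖(F^[i0] x' - z) - x‖ ≤ δ / 4 := hbx.trans (hρ1 N)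
    have hN1 : 1 ≤ N := hN0.trans hNN
    by_cases hreg : ∀ k, 1 ≤ k → k ≤ N →
        ¬ Near (Real.exp (-(s N / 3))) (F^[k] (F^[i0] x' - z)) (F^[i0] x' - z)
    · obtain ⟨U, D', q, m, hD0, hD'D, hD1, hU, hm, hqb, hret⟩ := hC L F F' hcfg x'
        (F^[i0] x' - z) n N i0 j0 (Real.exp (-s N)) (Real.exp (-s (N + 1)))
        (Real.exp (-(s N / 3))) hN1 (Real.exp_pos _) hij hjn
        (by
          have : F^[i0] x' - z - F^[i0] x' = -z := by abel
          rw [this]; exact neg_mem hz)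
        (by
          obtain ⟨w, hw, hwn⟩ := hnear
          refine ⟨w + z, add_mem hw hz, ?_⟩
          have hwn' : ‖F^[j0] x' - F^[i0] x' - w‖ ≤ Real.exp (-s N) := hwn
          have : F^[j0] x' - (F^[i0] x' - z) - (w + z) = F^[j0] x' - F^[i0] x' - w := by abel
          rw [this]; exact hwn')
        n2 n3 hreg
        (by
          intro i j u u' h1 h2 h3 h4 h5
          by_contra h6
          have h6' : ‖u' - u‖ ≤ Real.exp (-s (N + 1)) := not_lt.mp h6
          refine hmax i j h1 h2 ⟨-(u - F^[i] x'), neg_mem h3, ?_⟩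
            ⟨-(u' - F^[j] x') + (u - F^[i] x'), add_mem (neg_mem h4) h3, ?_⟩
          · show ‖F^[i] x' - x - -(u - F^[i] x')‖ ≤ δ / 8 * (2 - 1 / 2 ^ (N + 1))
            have e1 : F^[i] x' - x - -(u - F^[i] x') =
                (u - (F^[i0] x' - z)) + ((F^[i0] x' - z) - x) := by abel
            rw [e1]
            have e2 := norm_add_le (u - (F^[i0] x' - z)) ((F^[i0] x' - z) - x)
            have e3 := hρ3 N
            linarith
          · show ‖F^[j] x' - F^[i] x' - (-(u' - F^[j] x') + (u - F^[i] x'))‖ ≤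
              Real.exp (-s (N + 1))
            have e1 : F^[j] x' - F^[i] x' - (-(u' - F^[j] x') + (u - F^[i] x')) = u' - u := by
              abel
            rw [e1]; exact h6')
      have hD'1 : D' ≤ 1 := by
        have h1 : (1:ℝ) ≤ L ^ (15 * N) := one_le_pow₀ hL1
        have h2 := Real.exp_pos (-s N)
        nlinarith
      have hL3 : (0:ℝ) < L ^ (3 * N) := pow_pos (by linarith) _
      have hU' : Pert d (C * L ^ (3 * N) * Real.exp (-s N)) (C / N) (C * L ^ N / (N * D')) U :=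
        hU.mono (mul_le_mul_of_nonneg_left hD'D (by positivity)) le_rfl le_rfl
      obtain ⟨G', hG'⟩ := hGML d F F' _ _ _ U hlift hU' n5
      have hNpos : (0:ℝ) < N := by exact_mod_cast hN1
      have hCpos : (0:ℝ) < C := by linarith
      refine ⟨Gm F U, G', q, m, hG', ?_, hm, ?_, hret⟩
      · refine hCLS d L F F' _ _ _ U ω η hcfg hU' n5 hω ?_ ?_ ?_ hη.le n6 n7
          (n8 D' hD0 hD'1 hD1)
        · have := Real.exp_pos (-s N); positivity
        · positivity
        · have : (0:ℝ) < L ^ N := pow_pos (by linarith) _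
          positivity
      · have h1 : q - x = (q - (F^[i0] x' - z)) + ((F^[i0] x' - z) - x) := by abel
        have h2 := norm_add_le (q - (F^[i0] x' - z)) ((F^[i0] x' - z) - x)
        have h3 : δ / 8 / 2 ^ (N + 1) ≤ δ / 8 := by
          apply div_le_self (by linarith)
          exact one_le_pow₀ (by norm_num)
        have h4 : (0:ℝ) < L ^ (2 * N) * Real.exp (-s N) :=
          mul_pos (pow_pos (by linarith) _) (Real.exp_pos _)
        rw [h1]
        nlinarith
    · push Not at hreg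
      obtain ⟨k, hk1, hkN, hk⟩ := hreg
      have h1 : Real.exp (-(s N / 3)) ≤ c0 * t ^ k := by
        refine n4.trans (mul_le_mul_of_nonneg_left ?_ hc0.le)
        exact pow_le_pow_of_le_one ht0.le ht1.le hkN
      obtain ⟨U, q, m, hU, hm, hqb, hret⟩ := hfst F F' hlift (F^[i0] x' - z) k hk1 (hk.mono h1)
      have hU' : Pert d ε ε ε U := hU.mono (min_le_left _ _) (min_le_left _ _) (min_le_left _ _)
      obtain ⟨G', hG'⟩ := hGML d F F' _ _ _ U hlift hU' hε2
      refine ⟨Gm F U, G', q, m, hG', hcle F F' U hcfg hU', hm, ?_, hret⟩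
      have h1 : q - x = (q - (F^[i0] x' - z)) + ((F^[i0] x' - z) - x) := by abel
      have h2 := norm_add_le (q - (F^[i0] x' - z)) ((F^[i0] x' - z) - x)
      have h3 := min_le_right ε (δ / 4)
      rw [h1]
      linarith

end Pool.Agent.H88.CL
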