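import Pool.Agent.H88.CL.Targets

/-! Closing lemma on the torus: small closed facts for the rows. -/

open Set Function Topology Metric Filter

namespace Pool.Agent.H88.CL

theorem Near.mono {d : ℕ} {r r' : ℝ} {x y : E d} (h : Near r x y) (hr : r ≤ r') : Near r' x y := by
  obtain ⟨z, hz, h⟩ := h
  exact ⟨z, hz, h.trans hr⟩

theorem Pert.mono {d : ℕ} {σ β γ σ' β' γ' : ℝ} {U : E d → E d} (h : Pert d σ β γ U) (hσ : σ ≤ σ')
    (hβ : β ≤ β') (hγ : γ ≤ γ') : Pert d σ' β' γ' U where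
  c2 := h.c2
  per := h.per
  s := fun x => (h.s x).trans hσ
  b := fun x => (h.b x).trans hβ
  g := fun x y => (h.g x y).trans (mul_le_mul_of_nonneg_right hγ (norm_nonneg _))

/-- a lattice vector of norm `< 1` is zero -/
theorem lat_eq_zero {d : ℕ} {z : E d} (hz : z ∈ Lat d) (h : ‖z‖ < 1) : z = 0 := by
  ext i
  obtain ⟨n, hn⟩ := hz i
  have h1 : |z i| ≤ ‖z‖ := by
    have := EuclideanSpace.norm_eq z
    have h2 : ‖z i‖ ^ 2 ≤ ∑ j, ‖z j‖ ^ 2 :=
      Finset.single_le_sum (f := fun j => ‖z j‖ ^ 2) (fun j _ => sq_nonneg _) (Finset.mem_univ i)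
    rw [this, ← Real.norm_eq_abs]
    exact Real.le_sqrt_of_sq_le h2
  have h2 : |(n:ℝ)| < 1 := by rw [← hn]; exact lt_of_le_of_lt h1 h
  have h3 : |n| < 1 := by exact_mod_cast h2
  have h4 : n = 0 := Int.abs_lt_one_iff.1 h3
  rw [hn, h4]; simp

theorem lat_eq {d : ℕ} {x y : E d} (h : x - y ∈ Lat d) (h1 : ‖x - y‖ < 1) : x = y :=
  sub_eq_zero.1 (lat_eq_zero h h1)

theorem lat_closed (d : ℕ) : IsClosed (Lat d : Set (E d)) := by
  rw [← isOpen_compl_iff, Metric.isOpen_iff]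
  intro x hx
  by_cases h : ∃ z ∈ Lat d, ‖x - z‖ < 1 / 2
  · obtain ⟨z, hz, hxz⟩ := h
    have hne : 0 < ‖x - z‖ := norm_pos_iff.2 (fun h => hx (by rw [sub_eq_zero.1 h]; exact hz))
    refine ⟨‖x - z‖, hne, ?_⟩
    intro y hy hyL
    rw [mem_ball, dist_eq_norm] at hy
    have h1 : y - z ∈ Lat d := sub_mem hyL hz
    have h2 : ‖y - z‖ < 1 := by
      have h3 : y - z = (y - x) + (x - z) := by abel
      have h4 := norm_add_le (y - x) (x - z)
      rw [h3]; linarith
    have h3 : y = z := lat_eq h1 h2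
    rw [h3, ← norm_neg, neg_sub] at hy
    exact lt_irrefl _ hy
  · push Not at h
    refine ⟨1 / 2, by norm_num, ?_⟩
    intro y hy hyL
    rw [mem_ball, dist_eq_norm] at hy
    have := h y hyL
    rw [← norm_neg, neg_sub] at this
    linarith

theorem Cfg.one_le {d : ℕ} {L : ℝ} {F F' : E d → E d} (h : Cfg d L F F') : 1 ≤ L :=
  le_trans (by norm_num) h.two

theorem Cfg.pos {d : ℕ} {L : ℝ} {F F' : E d → E d} (h : Cfg d L F F') : 0 < L :=
  lt_of_lt_of_le (by norm_num) h.two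

theorem mk_eq {d : ℕ} {x y : E d} : mk d x = mk d y ↔ x - y ∈ Lat d := by
  unfold mk
  rw [QuotientAddGroup.eq, neg_add_eq_sub, ← neg_mem_iff, neg_sub]

theorem mk_surj {d : ℕ} (x : Tor d) : ∃ y, mk d y = x := QuotientAddGroup.mk_surjective x

theorem perm_pow_mk {d : ℕ} {g : Equiv.Perm (Tor d)} {G : E d → E d}
    (hg : ∀ x, g (mk d x) = mk d (G x)) (m : ℕ) (x : E d) : (g ^ m) (mk d x) = mk d (G^[m] x) := by
  induction m generalizing x with
  | zero => simp
  | succ m ih => rw [pow_succ, Equiv.Perm.mul_apply, hg, ih, iterate_succ_apply]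

theorem conj_iter {d : ℕ} (G : E d → E d) (t : E d) (m : ℕ) (x : E d) :
    (fun y => G (y + t) - t)^[m] x = G^[m] (x + t) - t := by
  induction m generalizing x with
  | zero => simp
  | succ m ih => rw [iterate_succ_apply, ih, iterate_succ_apply]; simp

theorem iter_li {d : ℕ} {F F' : E d → E d} (h : IsLift d F F') (l : ℕ) (x : E d) :
    F'^[l] (F^[l] x) = x := by
  have : LeftInverse F'^[l] F^[l] := LeftInverse.iterate h.li l
  exact this x

theorem iter_ri {d : ℕ} {F F' : E d → E d} (h : IsLift d F F') (l : ℕ) (x : E d) :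
    F^[l] (F'^[l] x) = x := by
  have : LeftInverse F^[l] F'^[l] := LeftInverse.iterate h.ri l
  exact this x

end Pool.Agent.H88.CL
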