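import Mathlib

/-! Closing lemma on the torus in the `C^{1,ω}`-small topology (problem MP_43af95_an): definitions. -/

open Set Function Topology Metric Filter

namespace Pool.Agent.H88.CL

noncomputable section

/-- Euclidean space `ℝ^d`. -/
abbrev E (d : ℕ) := EuclideanSpace ℝ (Fin d)

/-- The integer lattice `ℤ^d` in `ℝ^d`. -/
def Lat (d : ℕ) : AddSubgroup (E d) where
  carrier := {v | ∀ i, ∃ n : ℤ, v i = (n : ℝ)}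
  zero_mem' := fun i => ⟨0, by simp⟩
  add_mem' := by
    intro a b ha hb i
    obtain ⟨m, hm⟩ := ha i
    obtain ⟨n, hn⟩ := hb i
    exact ⟨m + n, by simp [hm, hn]⟩
  neg_mem' := by
    intro a ha i
    obtain ⟨m, hm⟩ := ha i
    exact ⟨-m, by simp [hm]⟩

/-- `x` and `y` are within `r` of each other modulo the lattice. -/
def Near {d : ℕ} (r : ℝ) (x y : E d) : Prop := ∃ z ∈ Lat d, ‖x - y - z‖ ≤ r

/-- `F` and `F'` are mutually inverse `C²` lifts of a `C²` diffeomorphism of `ℝ^d / ℤ^d` and of its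
inverse. -/
structure IsLift (d : ℕ) (F F' : E d → E d) : Prop where
  c2 : ContDiff ℝ 2 F
  c2' : ContDiff ℝ 2 F'
  li : ∀ x, F' (F x) = x
  ri : ∀ x, F (F' x) = x
  per : ∀ x, ∀ z ∈ Lat d, F (x + z) - F x ∈ Lat d
  per' : ∀ x, ∀ z ∈ Lat d, F' (x + z) - F' x ∈ Lat d

/-- Lifts with the uniform bound `L`. -/
structure Cfg (d : ℕ) (L : ℝ) (F F' : E d → E d) : Prop extends IsLift d F F' where
  two : 2 ≤ L
  b : ∀ x, ‖fderiv ℝ F x‖ ≤ L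
  b' : ∀ x, ‖fderiv ℝ F' x‖ ≤ L
  lp : ∀ x y, ‖fderiv ℝ F x - fderiv ℝ F y‖ ≤ L * ‖x - y‖

/-- A lattice-periodic `C²` displacement with size `σ`, derivative at most `β` and derivative
Lipschitz with constant `γ`. -/
structure Pert (d : ℕ) (σ β γ : ℝ) (U : E d → E d) : Prop where
  c2 : ContDiff ℝ 2 U
  per : ∀ x, ∀ z ∈ Lat d, U (x + z) = U x
  s : ∀ x, ‖U x‖ ≤ σ
  b : ∀ x, ‖fderiv ℝ U x‖ ≤ β
  g : ∀ x y, ‖fderiv ℝ U x - fderiv ℝ U y‖ ≤ γ * ‖x - y‖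

/-- The perturbed map `F ∘ (id + U)`. -/
def Gm {d : ℕ} (F U : E d → E d) : E d → E d := fun x => F (x + U x)

/-- Moduli of continuity `ω` with `ω(r) log(1/r) → ∞` as `r → 0`. -/
structure Modulus (ω : ℝ → ℝ) : Prop where
  pos : ∀ r, 0 < r → 0 < ω r
  mono : ∀ r s, 0 < r → r ≤ s → ω r ≤ ω s
  conc : ∀ r s, 0 < r → r ≤ s → r * ω s ≤ s * ω r
  log : Tendsto (fun r => ω r * Real.log (1 / r)) (𝓝[>] 0) atTop

/-- `G` is `η`-close to `F` in the `C^{1,ω}` sense. -/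
def Cls (d : ℕ) (ω : ℝ → ℝ) (η : ℝ) (F G : E d → E d) : Prop :=
  (∀ u, ‖G u - F u‖ ≤ η) ∧ (∀ u, ‖fderiv ℝ G u - fderiv ℝ F u‖ ≤ η) ∧
    ∀ u v, u ≠ v →
      ‖(fderiv ℝ G u - fderiv ℝ F u) - (fderiv ℝ G v - fderiv ℝ F v)‖ ≤ η * ω ‖u - v‖

/-- `G` is `η`-close to `F` in the `C²` sense. -/
def Cls2 (d : ℕ) (η : ℝ) (F G : E d → E d) : Prop :=
  (∀ u, ‖G u - F u‖ ≤ η) ∧ (∀ u, ‖fderiv ℝ G u - fderiv ℝ F u‖ ≤ η) ∧
    ∀ u, ‖fderiv ℝ (fderiv ℝ G) u - fderiv ℝ (fderiv ℝ F) u‖ ≤ η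

/-- An isotropic frame `P` for the maps `A 0, …, A (N-1)`, with `T l` the inverse of `A l ∘ P`. -/
structure Frame (d N : ℕ) (K : ℝ) (A : ℕ → E d →L[ℝ] E d) (P : E d ≃L[ℝ] E d)
    (T : ℕ → E d →L[ℝ] E d) : Prop where
  lo : ∀ v, ‖v‖ ≤ ‖P v‖
  hi : ∀ v, ‖P v‖ ≤ K ^ 2 * ‖v‖
  inv : ∀ l < N, ∀ w, T l (A l (P w)) = w
  inv' : ∀ l < N, ∀ y, A l (P (T l y)) = y
  tb : ∀ l < N, ‖T l‖ ≤ K
  str : ∀ v, ∃ z : ℕ → E d, z 0 = v ∧ z N = 0 ∧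
    (∀ l ≤ N, ‖z l - (1 / 2 : ℝ) • v‖ ≤ ‖v‖ / 2) ∧
    ∀ l < N, ‖z (l + 1) - z l‖ ≤ d / N * ‖v‖ ∧
      ‖T l‖ * ‖A l (P (z (l + 1) - z l))‖ ≤ d / N * ‖v‖

/-- The square of the Frobenius norm. -/
def fr {d : ℕ} (M : Matrix (Fin d) (Fin d) ℝ) : ℝ := ∑ i, ∑ j, (M i j) ^ 2

/-- The lift version of: `x` is nonwandering. -/
def NW (d : ℕ) (F : E d → E d) (x : E d) : Prop :=
  ∀ ρ : ℝ, 0 < ρ → ∃ (x' : E d) (n : ℕ), 1 ≤ n ∧ ‖x' - x‖ ≤ ρ ∧ Near ρ (F^[n] x') x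

/-- The torus `ℝ^d / ℤ^d`. -/
abbrev Tor (d : ℕ) := E d ⧸ Lat d

/-- The projection `ℝ^d → ℝ^d / ℤ^d`. -/
def mk (d : ℕ) (x : E d) : Tor d := QuotientAddGroup.mk x

/-- A map of the torus of class `C²`: it has a `C²` lift. -/
def IsC2 (d : ℕ) (f : Tor d → Tor d) : Prop :=
  ∃ F : E d → E d, ContDiff ℝ 2 F ∧ ∀ x, f (mk d x) = mk d (F x)

/-- `C²` diffeomorphisms of the torus. -/
def Diff2 (d : ℕ) (f : Equiv.Perm (Tor d)) : Prop := IsC2 d f ∧ IsC2 d f.symm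

/-- `x` is recurrent in the sense of the problem file: the orbit map `ℤ → M` is not a homeomorphism
onto its image. -/
def Recurrent (d : ℕ) (f : Equiv.Perm (Tor d)) (x : Tor d) : Prop :=
  ¬ IsEmbedding (fun m : ℤ => (f ^ m) x)

/-- `x` is nonwandering. -/
def NonWandering (d : ℕ) (f : Equiv.Perm (Tor d)) (x : Tor d) : Prop :=
  ∀ V ∈ 𝓝 x, ∃ n : ℕ, 1 ≤ n ∧ (((f ^ n : Equiv.Perm (Tor d)) '' V) ∩ V).Nonempty

/-- The points `x` and `y` of the torus are at distance at most `r`. -/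
def TNear (d : ℕ) (r : ℝ) (x y : Tor d) : Prop :=
  ∃ u v : E d, mk d u = x ∧ mk d v = y ∧ ‖u - v‖ ≤ r

end

end Pool.Agent.H88.CL
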