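import Pool.Agent.H88.CL.All

/-! Closing lemma on the torus: the two theorems with the closeness stated through directional
derivatives. -/

open Set Function Topology Metric Filter

namespace Pool.Agent.H88.CL

noncomputable section

/-- The derivative of `F` at `u` in the direction `w`. -/
def der {d : ℕ} (F : E d → E d) (u w : E d) : E d := fderiv ℝ F u w

/-- The second derivative of `F` at `u` in the directions `w` and `w'`. -/
def der2 {d : ℕ} (F : E d → E d) (u w w' : E d) : E d := der (fun x => der F x w) u w'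

/-- The difference `G - F` and its derivative, at `u` in the direction `w`. -/
def dif {d : ℕ} (F G : E d → E d) (u w : E d) : E d := der G u w - der F u w

/-- `G` is `η`-close to `F` in the `C^{1,ω}` sense: `G - F` and `D(G - F)` are bounded by `η` and
`D(G - F)` has the modulus of continuity `η ω`. -/
def Close (d : ℕ) (ω : ℝ → ℝ) (η : ℝ) (F G : E d → E d) : Prop :=
  (∀ u, ‖G u - F u‖ ≤ η) ∧ (∀ u w, ‖dif F G u w‖ ≤ η * ‖w‖) ∧
    ∀ u v w, u ≠ v → ‖dif F G u w - dif F G v w‖ ≤ η * ω ‖u - v‖ * ‖w‖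

/-- `G` is `η`-close to `F` in the `C²` sense. -/
def Close2 (d : ℕ) (η : ℝ) (F G : E d → E d) : Prop :=
  (∀ u, ‖G u - F u‖ ≤ η) ∧ (∀ u w, ‖dif F G u w‖ ≤ η * ‖w‖) ∧
    ∀ u w w', ‖der2 G u w w' - der2 F u w w'‖ ≤ η * ‖w‖ * ‖w'‖

theorem Cls.close {d : ℕ} {ω : ℝ → ℝ} {η : ℝ} {F G : E d → E d} (h : Cls d ω η F G) :
    Close d ω η F G := by
  refine ⟨h.1, fun u w => ?_, fun u v w huv => ?_⟩
  · have h1 := (fderiv ℝ G u - fderiv ℝ F u).le_opNorm w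
    have h2 := mul_le_mul_of_nonneg_right (h.2.1 u) (norm_nonneg w)
    exact h1.trans h2
  · have h1 := ((fderiv ℝ G u - fderiv ℝ F u) - (fderiv ℝ G v - fderiv ℝ F v)).le_opNorm w
    have h2 := mul_le_mul_of_nonneg_right (h.2.2 u v huv) (norm_nonneg w)
    exact h1.trans h2

theorem der2_eq {d : ℕ} {F : E d → E d} (hF : ContDiff ℝ 2 F) (u w w' : E d) :
    der2 F u w w' = fderiv ℝ (fderiv ℝ F) u w' w := by
  have h1 : DifferentiableAt ℝ (fderiv ℝ F) u :=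
    ((hF.fderiv_right (m := 1) (by norm_num)).differentiable (by norm_num)) u
  have h2 : HasFDerivAt (fun x => fderiv ℝ F x w)
      ((ContinuousLinearMap.apply ℝ (E d) w).comp (fderiv ℝ (fderiv ℝ F) u)) u :=
    (ContinuousLinearMap.apply ℝ (E d) w).hasFDerivAt.comp u h1.hasFDerivAt
  unfold der2 der
  rw [h2.fderiv]
  rfl

theorem Cls2.close {d : ℕ} {η : ℝ} {F G : E d → E d} (h : Cls2 d η F G) (hF : ContDiff ℝ 2 F)
    (hG : ContDiff ℝ 2 G) : Close2 d η F G := by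
  refine ⟨h.1, fun u w => ?_, fun u w w' => ?_⟩
  · have h1 := (fderiv ℝ G u - fderiv ℝ F u).le_opNorm w
    have h2 := mul_le_mul_of_nonneg_right (h.2.1 u) (norm_nonneg w)
    exact h1.trans h2
  · rw [der2_eq hF, der2_eq hG]
    have h1 := (fderiv ℝ (fderiv ℝ G) u - fderiv ℝ (fderiv ℝ F) u).le_opNorm w'
    have h2 := mul_le_mul_of_nonneg_right (h.2.2 u) (norm_nonneg w')
    have h3 := ((fderiv ℝ (fderiv ℝ G) u - fderiv ℝ (fderiv ℝ F) u) w').le_opNorm w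
    have h4 := mul_le_mul_of_nonneg_right (h1.trans h2) (norm_nonneg w)
    have h5 := h3.trans h4
    calc ‖fderiv ℝ (fderiv ℝ G) u w' w - fderiv ℝ (fderiv ℝ F) u w' w‖
        ≤ η * ‖w'‖ * ‖w‖ := h5
      _ = η * ‖w‖ * ‖w'‖ := by ring

theorem s_THM1 (d : ℕ) (f : Equiv.Perm (Tor d)) (hf : Diff2 d f) (x : Tor d)
    (hx : Recurrent d f x ∨ NonWandering d f x) (ω : ℝ → ℝ) (hω : Modulus ω) (η : ℝ)
    (hη : 0 < η) :
    ∃ g : Equiv.Perm (Tor d), Diff2 d g ∧ (∃ m : ℕ, 1 ≤ m ∧ (g ^ m) x = x) ∧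
      ∃ F G : E d → E d, ContDiff ℝ 2 F ∧ ContDiff ℝ 2 G ∧ (∀ y, f (mk d y) = mk d (F y)) ∧
        (∀ y, g (mk d y) = mk d (G y)) ∧ Close d ω η F G := by
  obtain ⟨g, hg, hm, F, G, h1, h2, h3, h4, h5⟩ := a_THM1 d f hf x hx ω hω η hη
  exact ⟨g, hg, hm, F, G, h1, h2, h3, h4, h5.close⟩

theorem s_THM2 (d : ℕ) (f : Equiv.Perm (Tor d)) (hf : Diff2 d f) (x : Tor d)
    (hx : ∀ A : ℝ, 0 < A → ∃ m : ℕ, 1 ≤ m ∧ TNear d (Real.exp (-(A * m))) ((f ^ m) x) x) (η : ℝ)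
    (hη : 0 < η) :
    ∃ g : Equiv.Perm (Tor d), Diff2 d g ∧ (∃ m : ℕ, 1 ≤ m ∧ (g ^ m) x = x) ∧
      ∃ F G : E d → E d, ContDiff ℝ 2 F ∧ ContDiff ℝ 2 G ∧ (∀ y, f (mk d y) = mk d (F y)) ∧
        (∀ y, g (mk d y) = mk d (G y)) ∧ Close2 d η F G := by
  obtain ⟨g, hg, hm, F, G, h1, h2, h3, h4, h5⟩ := a_THM2 d f hf x hx η hη
  exact ⟨g, hg, hm, F, G, h1, h2, h3, h4, h5.close h1 h2⟩

end

end Pool.Agent.H88.CL
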