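import Pool.Agent.H88.CL.Defs

/-! Closing lemma on the torus: the targets. -/

open Set Function Topology Metric Filter

namespace Pool.Agent.H88.CL

noncomputable section

/-! ### isotropic frames -/

def T_ISA : Prop := ∀ d : ℕ, 1 ≤ d → ∀ N : ℕ, 1 ≤ N → ∀ B : Fin N → Matrix (Fin d) (Fin d) ℝ,
  (∀ l, (B l).det ≠ 0) → ∃ Q : Matrix (Fin d) (Fin d) ℝ, Q.det ≠ 0 ∧
    ∀ R : Matrix (Fin d) (Fin d) ℝ,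
      R.det ^ (2 * N) * ∏ l, fr (B l * Q) ^ d ≤ Q.det ^ (2 * N) * ∏ l, fr (B l * R) ^ d

def T_ISB : Prop := ∀ d : ℕ, 1 ≤ d → ∀ N : ℕ, 1 ≤ N → ∀ B : Fin N → Matrix (Fin d) (Fin d) ℝ,
  (∀ l, (B l).det ≠ 0) → ∀ Q : Matrix (Fin d) (Fin d) ℝ, Q.det ≠ 0 →
    (∀ R : Matrix (Fin d) (Fin d) ℝ,
      R.det ^ (2 * N) * ∏ l, fr (B l * Q) ^ d ≤ Q.det ^ (2 * N) * ∏ l, fr (B l * R) ^ d) →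
    ∑ l, (fr (B l * Q))⁻¹ • ((B l * Q).transpose * (B l * Q)) =
      ((N : ℝ) / d) • (1 : Matrix (Fin d) (Fin d) ℝ)

/-- operator form of the isotropic position -/
def T_ISO : Prop := ∀ d : ℕ, 1 ≤ d → ∀ N : ℕ, 1 ≤ N → ∀ B B' : ℕ → E d →L[ℝ] E d,
  (∀ l < N, (∀ x, B' l (B l x) = x) ∧ (∀ x, B l (B' l x) = x)) →
  ∃ (Q : E d ≃L[ℝ] E d) (c : ℕ → ℝ), (∀ l < N, 0 < c l ∧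
      c l * ‖(B l).comp (Q : E d →L[ℝ] E d)‖ ^ 2 ≤ 1) ∧
    ∀ v w : E d, ∑ l ∈ Finset.range N, c l * inner ℝ (B l (Q v)) (B l (Q w)) =
      (N : ℝ) / d * inner ℝ v w

def T_FRM : Prop := ∀ d : ℕ, 1 ≤ d → ∀ N : ℕ, 1 ≤ N → ∀ K : ℝ, 1 ≤ K →
  ∀ A A' : ℕ → E d →L[ℝ] E d, (∀ l < N, ‖A l‖ ≤ K ∧ ‖A' l‖ ≤ K ∧
    (∀ x, A' l (A l x) = x) ∧ (∀ x, A l (A' l x) = x)) →
  ∃ (P : E d ≃L[ℝ] E d) (T : ℕ → E d →L[ℝ] E d), Frame d N K A P T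

/-! ### iterates -/

def T_ITA : Prop := ∀ (d : ℕ) (L : ℝ) (F F' : E d → E d), Cfg d L F F' → ∀ l : ℕ,
  ContDiff ℝ 2 F^[l] ∧ (∀ x, ‖fderiv ℝ F^[l] x‖ ≤ L ^ l) ∧
  (∀ x y, ‖F^[l] x - F^[l] y‖ ≤ L ^ l * ‖x - y‖) ∧
  (∀ x y, ‖x - y‖ ≤ L ^ l * ‖F^[l] x - F^[l] y‖)

def T_ITL : Prop := ∀ (d : ℕ) (F F' : E d → E d), IsLift d F F' → ∀ (l : ℕ) (x y : E d),
  F^[l] x - F^[l] y ∈ Lat d ↔ x - y ∈ Lat d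

def T_ITB : Prop := ∀ (d : ℕ) (L : ℝ) (F F' : E d → E d), Cfg d L F F' → ∀ (l : ℕ) (b : E d),
  ∃ A' : E d →L[ℝ] E d, ‖A'‖ ≤ L ^ l ∧ (∀ x, A' (fderiv ℝ F^[l] b x) = x) ∧
    ∀ x, fderiv ℝ F^[l] b (A' x) = x

def T_ITC : Prop := ∀ (d : ℕ) (L : ℝ) (F F' : E d → E d), Cfg d L F F' →
  ∀ (l : ℕ) (b x y : E d) (r : ℝ), ‖x - b‖ ≤ r → ‖y - b‖ ≤ r →
    ‖F^[l] x - F^[l] y - fderiv ℝ F^[l] b (x - y)‖ ≤ L ^ (3 * l) * r * ‖x - y‖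

def T_NLN : Prop := ∀ (d : ℕ) (L : ℝ) (F F' : E d → E d), Cfg d L F F' →
  ∀ (N l : ℕ) (b p x y : E d) (D : ℝ), l ≤ N → 0 ≤ D → 100 * L ^ (13 * N) * (‖p - b‖ + D) ≤ 1 →
    ‖x - p‖ ≤ 2 * L ^ (4 * N) * D → ‖y - p‖ ≤ 2 * L ^ (4 * N) * D →
    50 * L ^ (6 * N) * ‖F^[l] x - F^[l] y - fderiv ℝ F^[l] b (x - y)‖ ≤ ‖x - y‖

/-! ### bumps -/

def T_BMP : Prop := ∀ d : ℕ, ∃ (φ : E d → ℝ) (C : ℝ), 1 ≤ C ∧ ContDiff ℝ 2 φ ∧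
  (∀ z, ‖z‖ ≤ 11 / 20 → φ z = 1) ∧ (∀ z, 7 / 10 ≤ ‖z‖ → φ z = 0) ∧ (∀ z, |φ z| ≤ 1) ∧
  (∀ z, ‖fderiv ℝ φ z‖ ≤ C) ∧ ∀ z z', ‖fderiv ℝ φ z - fderiv ℝ φ z'‖ ≤ C * ‖z - z'‖

def T_OBP : Prop := ∀ d : ℕ, ∃ C : ℝ, 1 ≤ C ∧ ∀ (T : E d →L[ℝ] E d) (κ D : ℝ) (c v w : E d),
  ‖T‖ ≤ κ → 0 < D → ∃ u : E d → E d, ContDiff ℝ 2 u ∧ (∀ y, ‖u y‖ ≤ ‖w‖) ∧
    (∀ y, ‖fderiv ℝ u y‖ ≤ C * (κ / D) * ‖w‖) ∧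
    (∀ y y', ‖fderiv ℝ u y - fderiv ℝ u y'‖ ≤ C * (κ / D) ^ 2 * ‖w‖ * ‖y - y'‖) ∧
    (∀ y, ‖T (y - c) - v‖ ≤ 11 / 20 * D → u y = w) ∧
    ∀ y, u y ≠ 0 → ‖T (y - c) - v‖ ≤ 7 / 10 * D

def T_SUM : Prop := ∀ (d N : ℕ) (S : ℕ → Set (E d)) (u : ℕ → E d → E d) (σ β γ : ℝ),
  0 ≤ σ → 0 ≤ β → 0 ≤ γ →
  (∀ l < N, IsCompact (S l) ∧ ContDiff ℝ 2 (u l) ∧ (∀ y, ‖u l y‖ ≤ σ) ∧
    (∀ y, ‖fderiv ℝ (u l) y‖ ≤ β) ∧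
    (∀ y y', ‖fderiv ℝ (u l) y - fderiv ℝ (u l) y'‖ ≤ γ * ‖y - y'‖) ∧
    ∀ y, u l y ≠ 0 → y ∈ S l) →
  (∀ l < N, ∀ l' < N, ∀ y ∈ S l, ∀ y' ∈ S l', y - y' ∈ Lat d → l = l' ∧ y = y') →
  ∃ U : E d → E d, Pert d σ β (2 * γ) U ∧ (∀ l < N, ∀ y ∈ S l, U y = u l y) ∧
    ∀ y, U y ≠ 0 → ∃ l < N, ∃ y' ∈ S l, y - y' ∈ Lat d

/-! ### the perturbed map -/

def T_DIF : Prop := ∀ (d : ℕ) (σ β γ : ℝ) (U : E d → E d), Pert d σ β γ U → β ≤ 1 / 2 →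
  ∃ H' : E d → E d, ContDiff ℝ 2 H' ∧ (∀ x, H' (x + U x) = x) ∧ (∀ x, H' x + U (H' x) = x) ∧
    ∀ x, ∀ z ∈ Lat d, H' (x + z) = H' x + z

def T_GML : Prop := ∀ (d : ℕ) (F F' : E d → E d) (σ β γ : ℝ) (U : E d → E d), IsLift d F F' →
  Pert d σ β γ U → β ≤ 1 / 2 → ∃ G' : E d → E d, IsLift d (Gm F U) G'

def T_MOD : Prop := ∀ ω : ℝ → ℝ, Modulus ω → ∀ b c e r : ℝ, 0 < b → 0 < c → 0 ≤ e → 0 < r →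
  b ≤ e * ω (b / c) → min b (c * r) ≤ e * ω r

def T_OMB : Prop := ∀ ω : ℝ → ℝ, Modulus ω → ∀ M : ℝ, ∃ r0 : ℝ, 0 < r0 ∧
  ∀ r, 0 < r → r ≤ r0 → M * r ≤ ω r

/-- closeness of the perturbed map -/
def T_CLS : Prop := ∀ (d : ℕ) (L : ℝ) (F F' : E d → E d) (σ β γ : ℝ) (U : E d → E d)
  (ω : ℝ → ℝ) (η : ℝ), Cfg d L F F' → Pert d σ β γ U → β ≤ 1 / 2 → Modulus ω → 0 < σ → 0 < β →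
  0 ≤ γ → 0 ≤ η → L * (σ + β) ≤ η → 2 * L * σ ≤ η / 2 * ω (2 * σ / 3) →
  2 * L * β ≤ η / 2 * ω (2 * β / (2 * β + γ)) → Cls d ω η F (Gm F U)

/-- small `C²` perturbations are close -/
def T_CLE : Prop := ∀ (d : ℕ) (L : ℝ) (ω : ℝ → ℝ) (η : ℝ), 2 ≤ L → Modulus ω → 0 < η →
  ∃ ε : ℝ, 0 < ε ∧ ε ≤ 1 / 2 ∧ ∀ (F F' : E d → E d) (U : E d → E d), Cfg d L F F' →
    Pert d ε ε ε U → Cls d ω η F (Gm F U)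

/-- translation of a close map -/
def T_CNJ : Prop := ∀ (d : ℕ) (L : ℝ) (ω : ℝ → ℝ) (η : ℝ), 2 ≤ L → Modulus ω → 0 < η →
  ∃ δ : ℝ, 0 < δ ∧ ∀ (F F' G G' : E d → E d) (t : E d), Cfg d L F F' → IsLift d G G' →
    Cls d ω η F G → ‖t‖ ≤ δ → IsLift d (fun y => G (y + t) - t) (fun y => G' (y + t) - t) ∧
      Cls d ω (2 * η) F (fun y => G (y + t) - t)

/-! ### the `N`-step perturbation -/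

def T_NSU : Prop := ∀ d : ℕ, 1 ≤ d → ∃ C : ℝ, 1 ≤ C ∧ ∀ (L : ℝ) (F F' : E d → E d),
  Cfg d L F F' → ∀ (N : ℕ) (b p v z z' : E d) (P : E d ≃L[ℝ] E d) (T : ℕ → E d →L[ℝ] E d) (l : ℕ),
  1 ≤ N → Frame d N (L ^ N) (fun l => fderiv ℝ F^[l] b) P T → l < N → v ≠ 0 →
  100 * L ^ (13 * N) * (‖p - b‖ + ‖v‖) ≤ 1 → ‖z - (1 / 2 : ℝ) • v‖ ≤ ‖v‖ / 2 →
  ‖z' - (1 / 2 : ℝ) • v‖ ≤ ‖v‖ / 2 → ‖z' - z‖ ≤ d / N * ‖v‖ →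
  ‖T l‖ * ‖fderiv ℝ F^[l] b (P (z' - z))‖ ≤ d / N * ‖v‖ →
  ∃ u : E d → E d, ContDiff ℝ 2 u ∧ (∀ y, ‖u y‖ ≤ C * L ^ (3 * N) * ‖v‖) ∧
    (∀ y, ‖fderiv ℝ u y‖ ≤ C / N) ∧
    (∀ y y', ‖fderiv ℝ u y - fderiv ℝ u y'‖ ≤ C * L ^ N / (N * ‖v‖) * ‖y - y'‖) ∧
    u (F^[l] (p + P z)) = F^[l] (p + P z') - F^[l] (p + P z) ∧
    ∀ y, u y ≠ 0 → ∃ x, ‖P.symm (x - p) - (1 / 2 : ℝ) • v‖ ≤ 3 / 4 * ‖v‖ ∧ y = F^[l] x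

def T_NST : Prop := ∀ d : ℕ, 1 ≤ d → ∃ C : ℝ, 1 ≤ C ∧ ∀ (L : ℝ) (F F' : E d → E d),
  Cfg d L F F' → ∀ (N : ℕ) (b p q : E d) (P : E d ≃L[ℝ] E d) (T : ℕ → E d →L[ℝ] E d),
  1 ≤ N → Frame d N (L ^ N) (fun l => fderiv ℝ F^[l] b) P T → q ≠ p →
  100 * L ^ (13 * N) * (‖p - b‖ + ‖P.symm (q - p)‖) ≤ 1 →
  (∀ l < N, ∀ l' < N, ∀ x x' : E d,
    ‖P.symm (x - p) - (1 / 2 : ℝ) • P.symm (q - p)‖ ≤ 3 / 4 * ‖P.symm (q - p)‖ →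
    ‖P.symm (x' - p) - (1 / 2 : ℝ) • P.symm (q - p)‖ ≤ 3 / 4 * ‖P.symm (q - p)‖ →
    F^[l] x - F^[l'] x' ∈ Lat d → l = l') →
  ∃ (U : E d → E d) (ζ : ℕ → E d), Pert d (C * L ^ (3 * N) * ‖P.symm (q - p)‖) (C / N)
      (C * L ^ N / (N * ‖P.symm (q - p)‖)) U ∧ ζ 0 = q ∧ ζ N = p ∧
    (∀ l < N, F^[l] (ζ l) + U (F^[l] (ζ l)) = F^[l] (ζ (l + 1))) ∧
    ∀ y, U y ≠ 0 → ∃ l < N, ∃ x,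
      ‖P.symm (x - p) - (1 / 2 : ℝ) • P.symm (q - p)‖ ≤ 3 / 4 * ‖P.symm (q - p)‖ ∧
      y - F^[l] x ∈ Lat d

/-- steering along the orbit -/
def T_STR : Prop := ∀ (d : ℕ) (F F' : E d → E d), IsLift d F F' →
  ∀ (N m : ℕ) (p q : E d) (ζ : ℕ → E d) (U : E d → E d) (W : Set (E d)),
  ζ 0 = q → ζ N = p → (∀ l < N, F^[l] (ζ l) + U (F^[l] (ζ l)) = F^[l] (ζ (l + 1))) →
  (∀ y, U y ≠ 0 → ∃ l < N, ∃ x ∈ W, y - F^[l] x ∈ Lat d) → N ≤ m → F^[m] p - q ∈ Lat d →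
  (∀ s, 1 ≤ s → s < m → ∀ x ∈ W, F^[s] p - x ∉ Lat d) → (Gm F U)^[m] q - q ∈ Lat d

def T_DSJ : Prop := ∀ (d : ℕ) (L : ℝ) (F F' : E d → E d), Cfg d L F F' →
  ∀ (N : ℕ) (b p v : E d) (P : E d ≃L[ℝ] E d) (θ : ℝ), (∀ w, ‖P w‖ ≤ L ^ (2 * N) * ‖w‖) →
  (∀ k, 1 ≤ k → k ≤ N → ¬ Near θ (F^[k] b) b) → 3 * L ^ (3 * N) * (‖p - b‖ + ‖v‖) ≤ θ →
  ∀ l < N, ∀ l' < N, ∀ x x' : E d, ‖P.symm (x - p) - (1 / 2 : ℝ) • v‖ ≤ 3 / 4 * ‖v‖ →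
    ‖P.symm (x' - p) - (1 / 2 : ℝ) • v‖ ≤ 3 / 4 * ‖v‖ → F^[l] x - F^[l'] x' ∈ Lat d → l = l'

def T_MGN : Prop := ∀ (d : ℕ) (L : ℝ) (F F' : E d → E d), Cfg d L F F' →
  ∀ (N m : ℕ) (b p q : E d) (D θ : ℝ), ‖q - p‖ ≤ L ^ (2 * N) * D →
  (∀ k, 1 ≤ k → k ≤ N → ¬ Near θ (F^[k] b) b) → 3 * L ^ (3 * N) * (‖p - b‖ + D) ≤ θ →
  1 ≤ m → F^[m] p - q ∈ Lat d → N < m

/-! ### selection -/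

def T_SEL : Prop := ∀ (d : ℕ) (P : E d ≃L[ℝ] E d) (b : E d) (Y : ℕ → E d) (n : ℕ) (c0 d0 : ℝ),
  0 < d0 →
  (∃ i j : ℕ, ∃ u u' : E d, i < j ∧ j ≤ n ∧ u - Y i ∈ Lat d ∧ u' - Y j ∈ Lat d ∧
    ‖P.symm (u' - u)‖ + 1 / 16 * ‖P.symm (u - b)‖ ≤ c0) →
  (∀ i j : ℕ, ∀ u u' : E d, i < j → j ≤ n → u - Y i ∈ Lat d → u' - Y j ∈ Lat d →
    ‖P.symm (u' - u)‖ + 1 / 16 * ‖P.symm (u - b)‖ ≤ c0 → d0 ≤ ‖P.symm (u' - u)‖) →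
  ∃ i j : ℕ, ∃ u u' : E d, i < j ∧ j ≤ n ∧ u - Y i ∈ Lat d ∧ u' - Y j ∈ Lat d ∧
    ‖P.symm (u' - u)‖ + 1 / 16 * ‖P.symm (u - b)‖ ≤ c0 ∧
    ∀ s, i < s → s < j → ∀ y, y - Y s ∈ Lat d →
      3 / 4 * ‖P.symm (u' - u)‖ < ‖P.symm (y - u) - (1 / 2 : ℝ) • P.symm (u' - u)‖

/-- the largest admissible scale -/
def T_MAX : Prop := ∀ (d : ℕ) (Y : ℕ → E d) (n : ℕ) (x : E d) (D ρ : ℕ → ℝ) (N0 : ℕ) (R : ℝ),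
  (∀ ε : ℝ, 0 < ε → ∃ N1, ∀ N ≥ N1, D N < ε) → (∀ N, ρ N ≤ R) →
  (∃ i j, i < j ∧ j ≤ n ∧ Near (ρ N0) (Y i) x ∧ Near (D N0) (Y j) (Y i)) →
  (∃ i j, i < j ∧ j ≤ n ∧ Near R (Y i) x ∧ Y j - Y i ∈ Lat d) ∨
  ∃ N, N0 ≤ N ∧ (∃ i j, i < j ∧ j ≤ n ∧ Near (ρ N) (Y i) x ∧ Near (D N) (Y j) (Y i)) ∧
    ∀ i j, i < j → j ≤ n → Near (ρ (N + 1)) (Y i) x → ¬ Near (D (N + 1)) (Y j) (Y i)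

/-! ### the regular case -/

def T_REG : Prop := ∀ d : ℕ, 1 ≤ d → ∃ C : ℝ, 1 ≤ C ∧ ∀ (L : ℝ) (F F' : E d → E d),
  Cfg d L F F' → ∀ (x' b : E d) (n N i0 j0 : ℕ) (D D1 θ : ℝ), 1 ≤ N → 0 < D1 → i0 < j0 → j0 ≤ n →
  b - F^[i0] x' ∈ Lat d → Near D (F^[j0] x') b → 1700 * L ^ (15 * N) * D ≤ 1 →
  51 * L ^ (5 * N) * D ≤ θ → (∀ k, 1 ≤ k → k ≤ N → ¬ Near θ (F^[k] b) b) →
  (∀ i j : ℕ, ∀ u u' : E d, i < j → j ≤ n → u - F^[i] x' ∈ Lat d → u' - F^[j] x' ∈ Lat d →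
    ‖u - b‖ ≤ 16 * L ^ (2 * N) * D → D1 < ‖u' - u‖) →
  ∃ (U : E d → E d) (D' : ℝ) (q : E d) (m : ℕ), 0 < D' ∧ D' ≤ D ∧ D1 ≤ L ^ (2 * N) * D' ∧
    Pert d (C * L ^ (3 * N) * D') (C / N) (C * L ^ N / (N * D')) U ∧ 1 ≤ m ∧
    ‖q - b‖ ≤ 17 * L ^ (2 * N) * D ∧ (Gm F U)^[m] q - q ∈ Lat d

/-! ### the fast regime -/

def T_OBC : Prop := ∀ d : ℕ, ∃ C : ℝ, 1 ≤ C ∧ ∀ (F F' : E d → E d), IsLift d F F' →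
  ∀ (y q : E d) (m : ℕ) (R : ℝ), 1 ≤ m → q - F^[m] y ∈ Lat d → 0 < R → R ≤ 1 / 4 →
  (∀ l, 1 ≤ l → l < m → ¬ Near R (F^[l] y) q) →
  ∃ U : E d → E d, Pert d ‖q - y‖ (C * ‖q - y‖ / R) (C * ‖q - y‖ / R ^ 2) U ∧
    (Gm F U)^[m] q - q ∈ Lat d

def T_HLV : Prop := ∀ d : ℕ, ∃ C : ℝ, 1 ≤ C ∧ ∀ (F F' : E d → E d), IsLift d F F' →
  ∀ (ε : ℝ) (y q : E d) (m : ℕ), 0 < ε → ε ≤ 1 → 1 ≤ m → q - F^[m] y ∈ Lat d →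
  C / ε * ‖q - y‖ ≤ 1 / 16 →
  (∃ U : E d → E d, Pert d ε ε ε U ∧ (Gm F U)^[m] q - q ∈ Lat d) ∨
  ∃ (y' : E d) (m' : ℕ), 1 ≤ m' ∧ 2 * m' ≤ m ∧ ‖y' - y‖ ≤ 2 * Real.sqrt (C / ε * ‖q - y‖) ∧
    Near (2 * Real.sqrt (C / ε * ‖q - y‖)) (F^[m'] y') y'

def T_FST : Prop := ∀ (d : ℕ) (ε : ℝ), 0 < ε → ∃ t c0 : ℝ, 0 < t ∧ t < 1 ∧ 0 < c0 ∧
  ∀ (F F' : E d → E d), IsLift d F F' → ∀ (y : E d) (m : ℕ), 1 ≤ m →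
    Near (c0 * t ^ m) (F^[m] y) y →
    ∃ (U : E d → E d) (q : E d) (m' : ℕ), Pert d ε ε ε U ∧ 1 ≤ m' ∧ ‖q - y‖ ≤ ε ∧
      (Gm F U)^[m'] q - q ∈ Lat d

/-! ### scales -/

def T_SCL : Prop := ∀ ω : ℝ → ℝ, Modulus ω → ∃ s : ℕ → ℝ,
  (∀ A : ℝ, ∃ N0 : ℕ, ∀ N ≥ N0, A * N ≤ s N) ∧ Monotone s ∧
  ∀ M : ℝ, ∃ N0 : ℕ, ∀ N ≥ N0, M / N ≤ ω (Real.exp (-(2 * s (N + 1))))

def T_NUM : Prop := ∀ ω : ℝ → ℝ, Modulus ω → ∀ L C δ η t c0 : ℝ, 2 ≤ L → 1 ≤ C → 0 < δ → 0 < η →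
  0 < t → t < 1 → 0 < c0 → ∃ (s : ℕ → ℝ) (N0 : ℕ), 1 ≤ N0 ∧
  (∀ ε : ℝ, 0 < ε → ∃ N1, ∀ N ≥ N1, Real.exp (-s N) < ε) ∧
  ∀ N ≥ N0, 16 * L ^ (2 * N) * Real.exp (-s N) ≤ δ / 2 ^ (N + 1) ∧
    1700 * L ^ (15 * N) * Real.exp (-s N) ≤ 1 ∧
    51 * L ^ (5 * N) * Real.exp (-s N) ≤ Real.exp (-(s N / 3)) ∧
    Real.exp (-(s N / 3)) ≤ c0 * t ^ N ∧
    C / N ≤ 1 / 2 ∧
    L * (C * L ^ (3 * N) * Real.exp (-s N) + C / N) ≤ η ∧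
    2 * L * (C * L ^ (3 * N) * Real.exp (-s N)) ≤
      η / 2 * ω (2 * (C * L ^ (3 * N) * Real.exp (-s N)) / 3) ∧
    ∀ D' : ℝ, 0 < D' → D' ≤ 1 → Real.exp (-s (N + 1)) ≤ L ^ (2 * N) * D' →
      2 * L * (C / N) ≤ η / 2 * ω (2 * (C / N) / (2 * (C / N) + C * L ^ N / (N * D')))

/-! ### the main construction, in lifts -/

def T_TOP : Prop := ∀ d : ℕ, 1 ≤ d → ∀ ω : ℝ → ℝ, Modulus ω → ∀ (L : ℝ) (F F' : E d → E d),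
  Cfg d L F F' → ∀ x : E d, NW d F x → ∀ δ η : ℝ, 0 < δ → 0 < η →
  ∃ (G G' : E d → E d) (q : E d) (m : ℕ), IsLift d G G' ∧ Cls d ω η F G ∧ 1 ≤ m ∧
    ‖q - x‖ ≤ δ ∧ G^[m] q - q ∈ Lat d

/-! ### lifts and the torus -/

/-- a continuous lattice-valued map is constant -/
def T_CON : Prop := ∀ (d : ℕ) (g : E d → E d), Continuous g → (∀ x, g x ∈ Lat d) →
  ∀ x y, g x = g y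

def T_LFA : Prop := ∀ (d : ℕ) (f : Equiv.Perm (Tor d)), Diff2 d f → ∃ F F' : E d → E d,
  IsLift d F F' ∧ (∀ x, f (mk d x) = mk d (F x)) ∧ ∀ x, f.symm (mk d x) = mk d (F' x)

/-- the converse: lifts give a diffeomorphism of the torus -/
def T_LFB : Prop := ∀ (d : ℕ) (G G' : E d → E d), IsLift d G G' → ∃ g : Equiv.Perm (Tor d),
  Diff2 d g ∧ ∀ x, g (mk d x) = mk d (G x)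

def T_BND : Prop := ∀ (d : ℕ) (F F' : E d → E d), IsLift d F F' → ∃ L : ℝ, Cfg d L F F'

def T_UCD : Prop := ∀ (d : ℕ) (F F' : E d → E d), IsLift d F F' → ∀ η : ℝ, 0 < η →
  ∃ δ : ℝ, 0 < δ ∧ ∀ x t : E d, ‖t‖ ≤ δ →
    ‖fderiv ℝ (fderiv ℝ F) (x + t) - fderiv ℝ (fderiv ℝ F) x‖ ≤ η

def T_NWL : Prop := ∀ (d : ℕ) (f : Equiv.Perm (Tor d)) (F : E d → E d), Continuous F →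
  (∀ x, f (mk d x) = mk d (F x)) → ∀ x : E d, NonWandering d f (mk d x) → NW d F x

def T_REC : Prop := ∀ (d : ℕ) (f : Equiv.Perm (Tor d)) (x : Tor d), Diff2 d f →
  Recurrent d f x → NonWandering d f x

/-- `C²` closeness of a small `C²` perturbation -/
def T_CL2 : Prop := ∀ (d : ℕ) (L : ℝ) (F F' : E d → E d) (η : ℝ), Cfg d L F F' → 0 < η →
  ∃ ε : ℝ, 0 < ε ∧ ε ≤ 1 / 2 ∧ ∀ U : E d → E d, Pert d ε ε ε U → Cls2 d η F (Gm F U)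

def T_CN2 : Prop := ∀ (d : ℕ) (L : ℝ) (F F' : E d → E d) (η : ℝ), Cfg d L F F' → 0 < η →
  ∃ δ : ℝ, 0 < δ ∧ ∀ (G G' : E d → E d) (t : E d), IsLift d G G' →
    Cls2 d η F G → ‖t‖ ≤ δ → IsLift d (fun y => G (y + t) - t) (fun y => G' (y + t) - t) ∧
      Cls2 d (2 * η) F (fun y => G (y + t) - t)

/-! ### final statements -/

def T_THM1 : Prop := ∀ (d : ℕ) (f : Equiv.Perm (Tor d)), Diff2 d f → ∀ x : Tor d,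
  (Recurrent d f x ∨ NonWandering d f x) → ∀ ω : ℝ → ℝ, Modulus ω → ∀ η : ℝ, 0 < η →
  ∃ g : Equiv.Perm (Tor d), Diff2 d g ∧ (∃ m : ℕ, 1 ≤ m ∧ (g ^ m) x = x) ∧
    ∃ F G : E d → E d, ContDiff ℝ 2 F ∧ ContDiff ℝ 2 G ∧ (∀ y, f (mk d y) = mk d (F y)) ∧
      (∀ y, g (mk d y) = mk d (G y)) ∧ Cls d ω η F G

def T_THM2 : Prop := ∀ (d : ℕ) (f : Equiv.Perm (Tor d)), Diff2 d f → ∀ x : Tor d,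
  (∀ A : ℝ, 0 < A → ∃ m : ℕ, 1 ≤ m ∧ TNear d (Real.exp (-(A * m))) ((f ^ m) x) x) →
  ∀ η : ℝ, 0 < η → ∃ g : Equiv.Perm (Tor d), Diff2 d g ∧ (∃ m : ℕ, 1 ≤ m ∧ (g ^ m) x = x) ∧
    ∃ F G : E d → E d, ContDiff ℝ 2 F ∧ ContDiff ℝ 2 G ∧ (∀ y, f (mk d y) = mk d (F y)) ∧
      (∀ y, g (mk d y) = mk d (G y)) ∧ Cls2 d η F G

end

end Pool.Agent.H88.CL
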